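import Pool.Agent.N931.PN.Stm5
import Pool.Agent.H389R2.NS.Pair1
import Pool.Agent.H389R2.NS.Pair2

set_option autoImplicit false

/-! Test functions (helper97, for project PN of helper931). -/

namespace Pool.Agent.N97.PN.TST

open H974 H12S H389NS Finset Pool.Agent.N931.PN

section Abs

variable {E : Type*} [DecidableEq E]

omit [DecidableEq E] in
theorem okh : Ok (hp : E → ℝ) := fun e => by
  unfold hp
  constructor <;> norm_num

/-- the change of the correlations -/
theorem key (ρ : E → ℝ) (S : Finset E) (hρ : ∀ e ∈ S, 0 ≤ ρ e ∧ ρ e ≤ 1) (g k : Finset E → ℝ)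
    (hk : ∀ F, 0 ≤ k F ∧ k F ≤ 1) :
    Ex hp S (fun F => g F * k F) - E2 ρ S (fun F F' => g F * k F') ≤
      ∑ e ∈ S, (1 - ρ e) / 4 * Ex hp S (fun F => |dif e g F|) := by
  induction S using Finset.induction_on generalizing g k with
  | empty => rw [Ex_empty, A6_empty]; simp
  | insert a S ha ih =>
    have hS : ∀ e ∈ S, 0 ≤ ρ e ∧ ρ e ≤ 1 := fun e he => hρ e (mem_insert_of_mem he)
    have hρa := hρ a (mem_insert_self a S)
    have h1 := ih hS (fun F => g (insert a F)) (fun F => k (insert a F)) (fun F => hk _)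
    have h0 := ih hS g k hk
    rw [sum_insert ha, A6_insert ρ ha, Ex_insert hp ha]
    have e1 : ∀ e ∈ S, Ex hp (insert a S) (fun F => |dif e g F|) =
        1 / 2 * (Ex hp S (fun F => |dif e (fun F => g (insert a F)) F|) + Ex hp S (fun F => |dif e g F|)) := by
      intro e he
      have hea : e ≠ a := fun h => ha (h ▸ he)
      rw [Ex_insert hp ha]
      have : ∀ F : Finset E, dif e g (insert a F) = dif e (fun F => g (insert a F)) F := by
        intro F
        unfold dif
        rw [Finset.insert_comm, Finset.erase_insert_of_ne hea.symm]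
      simp only [this]
      simp only [hp]
      ring
    have e2 : Ex hp (insert a S) (fun F => |dif a g F|) = Ex hp S (fun F => |g (insert a F) - g F|) := by
      rw [Ex_insert hp ha]
      have f1 : Ex hp S (fun F => |dif a g (insert a F)|) = Ex hp S (fun F => |g (insert a F) - g F|) := by
        refine Ex_congr fun F hF => ?_
        have haF : a ∉ F := fun h => ha (hF h)
        unfold dif
        rw [Finset.insert_idem, Finset.erase_insert haF]
      have f2 : Ex hp S (fun F => |dif a g F|) = Ex hp S (fun F => |g (insert a F) - g F|) := by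
        refine Ex_congr fun F hF => ?_
        have haF : a ∉ F := fun h => ha (hF h)
        unfold dif
        rw [Finset.erase_eq_of_notMem haF]
      rw [f1, f2]
      ring
    have e3 : E2 ρ S (fun F F' => g (insert a F) * k (insert a F')) + E2 ρ S (fun F F' => g F * k F') -
        (E2 ρ S (fun F F' => g (insert a F) * k F') + E2 ρ S (fun F F' => g F * k (insert a F'))) ≤
        Ex hp S (fun F => |g (insert a F) - g F|) := by
      have f1 : E2 ρ S (fun F F' => g (insert a F) * k (insert a F')) + E2 ρ S (fun F F' => g F * k F') =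
          E2 ρ S (fun F F' => (g (insert a F) - g F) * (k (insert a F') - k F')) +
          (E2 ρ S (fun F F' => g (insert a F) * k F') + E2 ρ S (fun F F' => g F * k (insert a F'))) := by
        rw [← A6_add, ← A6_add, ← A6_add]
        congr 1
        funext F F'
        ring
      rw [f1, add_sub_cancel_right, ← A6_left ρ S]
      refine E2_mono hS fun F F' _ _ => ?_
      have h2 := hk F'
      have h3 := hk (insert a F')
      have h4 : |k (insert a F') - k F'| ≤ 1 := by
        rw [abs_le]
        constructor <;> linarith [h2.1, h2.2, h3.1, h3.2]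
      calc (g (insert a F) - g F) * (k (insert a F') - k F')
          ≤ |(g (insert a F) - g F) * (k (insert a F') - k F')| := le_abs_self _
        _ = |g (insert a F) - g F| * |k (insert a F') - k F'| := abs_mul _ _
        _ ≤ |g (insert a F) - g F| * 1 := mul_le_mul_of_nonneg_left h4 (abs_nonneg _)
        _ = _ := mul_one _
    have e4 : ∑ e ∈ S, (1 - ρ e) / 4 * Ex hp (insert a S) (fun F => |dif e g F|) =
        1 / 2 * (∑ e ∈ S, (1 - ρ e) / 4 * Ex hp S (fun F => |dif e (fun F => g (insert a F)) F|) +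
          ∑ e ∈ S, (1 - ρ e) / 4 * Ex hp S (fun F => |dif e g F|)) := by
      rw [← sum_add_distrib, mul_sum]
      refine sum_congr rfl fun e he => ?_
      rw [e1 e he]
      ring
    rw [e4, e2]
    have h5 : 0 ≤ (1 - ρ a) / 4 := by linarith [hρa.2]
    have h6 := mul_le_mul_of_nonneg_left e3 h5
    simp only [hp] at h1 h0 h6 ⊢
    nlinarith

theorem wal_zero {S B T : Finset E} {k : Finset E → ℝ} (hk : ∀ F, F ⊆ S → k F = k (F ∩ B)) (hT : T ⊆ S)
    (hTB : ¬ T ⊆ B) : wal S k T = 0 := by
  obtain ⟨e, heT, heB⟩ := not_subset.1 hTB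
  have heS := hT heT
  obtain ⟨V, hV, rfl⟩ : ∃ V, e ∉ V ∧ insert e V = S :=
    ⟨S.erase e, Finset.notMem_erase e S, Finset.insert_erase heS⟩
  obtain ⟨U, hU, rfl⟩ : ∃ U, e ∉ U ∧ insert e U = T :=
    ⟨T.erase e, Finset.notMem_erase e T, Finset.insert_erase heT⟩
  have hUV : U ⊆ V := by
    intro x hx
    have h1 := hT (mem_insert_of_mem hx)
    rcases mem_insert.1 h1 with h | h
    · exact absurd (h ▸ hx) hU
    · exact h
  rw [(A6_wal_insert hV hUV k).2]
  have h1 : wal V (fun F => k (insert e F)) U = wal V k U := by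
    unfold wal
    refine Ex_congr fun F hF => ?_
    show chi U F * k (insert e F) = chi U F * k F
    rw [hk (insert e F) (Finset.insert_subset_insert e hF), hk F (hF.trans (subset_insert e V)),
      Finset.insert_inter_of_notMem heB]
  rw [h1]
  ring

/-- the two correlations -/
theorem same {S B : Finset E} (g k : Finset E → ℝ) (hk : ∀ F, F ⊆ S → k F = k (F ∩ B)) (y : ℝ) :
    E2 (fun e => if e ∈ B then y else 1) S (fun F F' => g F * k F') =
      E2 (fun _ => y) S (fun F F' => g F * k F') := by
  rw [E2_wal, E2_wal]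
  refine sum_congr rfl fun T hT => ?_
  have hT' := mem_powerset.1 hT
  by_cases h : T ⊆ B
  · congr 1
    refine prod_congr rfl fun e he => ?_
    rw [if_pos (h he)]
  · rw [wal_zero hk hT' h]
    ring

theorem cs {S : Finset E} (g k : Finset E → ℝ) {y : ℝ} (hy : 0 ≤ y) :
    (E2 (fun _ => y) S (fun F F' => g F * k F')) ^ 2 ≤
      E2 (fun _ => y) S (fun F F' => g F * g F') * E2 (fun _ => y) S (fun F F' => k F * k F') := by
  rw [E2_wal, E2_wal, E2_wal]
  refine sum_sq_le_sum_mul_sum_of_sq_le_mul _ (fun T _ => ?_) (fun T _ => ?_) (fun T _ => ?_)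
  · exact mul_nonneg (mul_self_nonneg _) (prod_nonneg fun _ _ => hy)
  · exact mul_nonneg (mul_self_nonneg _) (prod_nonneg fun _ _ => hy)
  · exact le_of_eq (by ring)

theorem nn {S : Finset E} (g : Finset E → ℝ) {y : ℝ} (hy : 0 ≤ y) :
    0 ≤ E2 (fun _ => y) S (fun F F' => g F * g F') := by
  rw [E2_wal]
  exact sum_nonneg fun T _ => mul_nonneg (mul_self_nonneg _) (prod_nonneg fun _ _ => hy)

end Abs

theorem main : S_TST := by
  intro S B hB g k hk hg y P b hy hy1 hP hPk hb hbE
  set kf : Finset Edg → ℝ := fun F => ind (k F) with hkf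
  have hk1 : ∀ F, F ⊆ S → kf F = kf (F ∩ B) := fun F hF => ind_congr (hk F hF)
  have h1 := key (fun e => if e ∈ B then y else 1) S (fun e _ => by
    split_ifs
    · exact ⟨hy, hy1⟩
    · exact ⟨zero_le_one, le_rfl⟩) g kf (fun F => ⟨ind_nonneg _, ind_le_one _⟩)
  rw [same g kf hk1 y] at h1
  have h2 : Ex hp S (fun F => g F * kf F) = Ex hp S g := by
    refine Ex_congr fun F hF => ?_
    by_cases h : g F = 0
    · rw [h, zero_mul]
    · rw [hkf]
      simp only
      rw [ind_of (hg F hF h), mul_one]
  rw [h2] at h1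
  have h3 : ∑ e ∈ S, (1 - (if e ∈ B then y else 1)) / 4 * Ex hp S (fun F => |dif e g F|) =
      (1 - y) / 4 * ∑ e ∈ B, Ex hp S (fun F => |dif e g F|) := by
    rw [mul_sum, ← sum_subset hB]
    · refine sum_congr rfl fun e he => ?_
      rw [if_pos he]
    · intro e _ he
      rw [if_neg he]
      simp
  rw [h3] at h1
  have h4 : 0 ≤ ∑ e ∈ B, Ex hp S (fun F => |dif e g F|) :=
    sum_nonneg fun e _ => Ex_nonneg okh fun F _ => abs_nonneg _
  have h5 : b ≤ E2 (fun _ => y) S (fun F F' => g F * kf F') := by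
    have h6 : 0 ≤ (1 - y) * ∑ e ∈ B, Ex hp S (fun F => |dif e g F|) := mul_nonneg (by linarith) h4
    linarith
  have h6 := cs (S := S) g kf hy
  have h7 : E2 (fun _ => y) S (fun F F' => kf F * kf F') ≤ P :=
    (P2_le_Pr (ρ := fun _ => y) (S := S) (fun e _ => ⟨hy, hy1⟩) k k).trans hPk
  have h8 := nn (S := S) g hy
  rw [div_le_iff₀ hP]
  calc b ^ 2 ≤ (E2 (fun _ => y) S (fun F F' => g F * kf F')) ^ 2 := pow_le_pow_left₀ hb h5 2
    _ ≤ _ := h6
    _ ≤ _ := mul_le_mul_of_nonneg_left h7 h8

end Pool.Agent.N97.PN.TST
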